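import Pool.Agent.P.MP_e79ed6_al.DfC

set_option autoImplicit false

namespace Pool.Agent.Results.MP_e79ed6_al.NotDirectlyFinite

/-- The word length of `g` with respect to `S`. -/
noncomputable def wordLength {G : Type} [Group G] (S : Finset G) (g : G) : ℕ :=
  sInf {n : ℕ | ∃ l : List G, l.length = n ∧ (∀ s ∈ l, s ∈ S ∨ s⁻¹ ∈ S) ∧ l.prod = g}

/-- Twice the Gromov product of `x` and `y` at the base point `w`. -/
noncomputable def gromov {G : Type} [Group G] (S : Finset G) (w x y : G) : ℤ :=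
  (wordLength S (w⁻¹ * x) : ℤ) + wordLength S (w⁻¹ * y) - wordLength S (x⁻¹ * y)

/-- Gromov hyperbolic groups: the word metric of a finite generating set satisfies the four-point
condition. -/
def IsHyperbolic (G : Type) [Group G] : Prop :=
  ∃ S : Finset G, Subgroup.closure (S : Set G) = ⊤ ∧ ∃ δ : ℕ, ∀ x y z w : G,
    min (gromov S w x y) (gromov S w y z) - 2 * (δ : ℤ) ≤ gromov S w x z

/-- Sofic groups. -/
def IsSofic (G : Type) [Group G] : Prop :=
  ∀ (F : Finset G) (ε : ℝ), 0 < ε → ∃ n : ℕ, 1 ≤ n ∧ ∃ φ : G → Equiv.Perm (Fin n),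
    (∀ g ∈ F, ∀ h ∈ F,
      ((Finset.univ.filter fun i => φ (g * h) i ≠ (φ g * φ h) i).card : ℝ) / n < ε) ∧
    ∀ g ∈ F, g ≠ 1 → 1 - ε < ((Finset.univ.filter fun i => φ g i ≠ i).card : ℝ) / n

/-- Surjunctive groups: every injective cellular automaton over a finite alphabet is surjective. -/
def IsSurjunctive (G : Type) [Group G] : Prop :=
  ∀ (A : Type) [Finite A] [TopologicalSpace A] [DiscreteTopology A] (τ : (G → A) → G → A),
    Continuous τ → (∀ (g : G) (ξ : G → A), τ (fun h => ξ (g⁻¹ * h)) = fun h => τ ξ (g⁻¹ * h)) →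
    Function.Injective τ → Function.Surjective τ

/-- For every prime `p` there is a hyperbolic group whose group algebra over the field with `p`
elements is not directly finite; the group is neither surjunctive nor sofic. -/
theorem result (p : ℕ) (hp : p.Prime) : ∃ (G : Type) (_ : Group G), IsHyperbolic G ∧
    (∃ a b : MonoidAlgebra (ZMod p) G, a * b = 1 ∧ b * a ≠ 1) ∧
    ¬ IsSurjunctive G ∧ ¬ IsSofic G := by
  have : Fact p.Prime := ⟨hp⟩
  obtain ⟨G, _, ⟨S, h1, ℓ, h2, δ, h3⟩, h4, a, b, h5, h6⟩ := Pool.Agent.P.MP_e79ed6_al.Df.main p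
  refine ⟨G, inferInstance, ⟨S, h1, δ, fun x y z w => ?_⟩, ⟨a, b, h5, h6⟩, fun h => ?_,
    fun h => h4 fun F ε hε => ?_⟩
  · obtain rfl : ℓ = wordLength S := funext h2
    exact h3 x y z w
  · obtain ⟨τ, t1, t2, t3, t4⟩ := Pool.Agent.P.MP_e79ed6_al.Df.automaton h5 h6
    exact t4 (h _ τ t1 t2 t3)
  · obtain ⟨n, hn, φ, k1, k2⟩ := h F ε hε
    have n0 : (0 : ℝ) < n := by exact_mod_cast hn
    refine ⟨n, φ, fun g hg k hk => (div_lt_iff₀ n0).1 (k1 g hg k hk), fun g hg g1 => ?_⟩
    have e := Finset.card_filter_add_card_filter_not (s := Finset.univ) fun i => φ g i = i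
    rw [Finset.card_univ, Fintype.card_fin] at e
    have e' : ((Finset.univ.filter fun i => φ g i = i).card : ℝ) +
      (Finset.univ.filter fun i => φ g i ≠ i).card = n := by exact_mod_cast e
    have := (lt_div_iff₀ n0).1 (k2 g hg g1)
    linarith

end Pool.Agent.Results.MP_e79ed6_al.NotDirectlyFinite
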